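import Pool.Agent.Disp90.Family

/-!
Minors with disjoint row and column sets: the products are nonnegative.
-/

namespace Pool.Agent.Disp90

open Matrix Finset

variable {J : Type*} [DecidableEq J]
variable {c ε q : ℝ} {π : J → Fin 3} {st : J → St}

/-- the statement for `k` rows -/
def PP (c ε q : ℝ) (π : J → Fin 3) (st : J → St) (k : ℕ) : Prop :=
  ∀ (f g : Fin k → Bool × J) (v w : Fin 3 → ℝ), Function.Injective f → Function.Injective g →
    (∀ i j, f i ≠ g j) → (∀ i, act st (f i)) → (∀ i, act st (g i)) →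
    Bud q (c / (1 - c * ε)) k v → Bud q (c / (1 - c * ε)) k w →
    0 ≤ ((B c ε π st (Kx q v)).submatrix f g).det * ((B c ε π st (Kx q w)).submatrix g f).det

omit [DecidableEq J] in
lemma snd_ne {f : Bool × J} {z : J} (hf : f ≠ (false, z)) (ht : f ≠ (true, z)) : f.2 ≠ z := by
  rcases f with ⟨b, y⟩
  rintro rfl
  cases b
  · exact hf rfl
  · exact ht rfl

/-- one step of the induction -/
lemma pair_step (hcε : c * ε < 1) {k : ℕ} (IH : PP c ε q π st k)
    (f g : Fin (k + 1) → Bool × J) (v w : Fin 3 → ℝ) (hf : Function.Injective f)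
    (hg : Function.Injective g) (hd : ∀ i j, f i ≠ g j) (haf : ∀ i, act st (f i))
    (hag : ∀ i, act st (g i)) (hv : Bud q (c / (1 - c * ε)) (k + 1) v)
    (hw : Bud q (c / (1 - c * ε)) (k + 1) w) {i : Fin (k + 1)} {z : J}
    (hi : f i = (false, z)) (hz : st z = .dbl) :
    0 ≤ ((B c ε π st (Kx q v)).submatrix f g).det * ((B c ε π st (Kx q w)).submatrix g f).det := by
  by_cases hj : ∃ j, g j = (true, z)
  swap
  · -- the row of `(false, z)` vanishes
    push Not at hj
    rw [det_eq_zero_of_row_eq_zero i, zero_mul]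
    intro j
    rw [submatrix_apply, hi]
    exact B_row_f _ hz (snd_ne (fun h => hd i j (hi.trans h.symm)) (hj j))
  obtain ⟨j, hj⟩ := hj
  have hbump : Bud q (c / (1 - c * ε)) k (bump w (π z) (-(c / (1 - c * ε)))) := hw.dec _
  have hfr : ∀ r, (f (i.succAbove r)).2 ≠ z := fun r =>
    snd_ne (fun h => Fin.succAbove_ne i r (hf (h.trans hi.symm)))
      (fun h => hd (i.succAbove r) j (h.trans hj.symm))
  have hgr : ∀ r, (g (j.succAbove r)).2 ≠ z := fun r =>
    snd_ne (fun h => hd i (j.succAbove r) (hi.trans h.symm))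
      (fun h => Fin.succAbove_ne j r (hg (h.trans hj.symm)))
  have hpos : 0 < 1 - c * ε - c * Kx q w (π z) (π z) := by
    have h1 := one_add_Kx q w (π z) (-(c / (1 - c * ε))) hw.cls.2.ne'
    have h2 : 0 < 1 + -(c / (1 - c * ε)) * Kx q w (π z) (π z) := by
      rw [h1]; exact div_pos hbump.cls.2 hw.cls.2
    have h3 : (0:ℝ) < 1 - c * ε := by linarith
    have h4 : 1 - c * ε - c * Kx q w (π z) (π z) =
        (1 - c * ε) * (1 + -(c / (1 - c * ε)) * Kx q w (π z) (π z)) := by
      field_simp
      ring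
    rw [h4]; exact mul_pos h3 h2
  have hne1 : B c ε π st (Kx q v) (f i) (g j) ≠ 0 := by
    rw [hi, hj, B_ft _ hz]; exact one_ne_zero
  have hne2 : B c ε π st (Kx q w) (g j) (f i) ≠ 0 := by
    rw [hi, hj, B_tf _ hz]; exact hpos.ne'
  rw [det_pivot _ f g i j hne1, det_pivot _ g f j i hne2]
  have e1 : (sch (B c ε π st (Kx q v)) (f i) (g j)).submatrix (f ∘ i.succAbove)
      (g ∘ j.succAbove) = (B c ε π st (Kx q v)).submatrix (f ∘ i.succAbove) (g ∘ j.succAbove) := by
    ext r s
    simp only [submatrix_apply, Function.comp_apply, sch, of_apply, hi, hj]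
    rw [B_col_t _ hz (hfr r)]
    ring
  have e2 : (sch (B c ε π st (Kx q w)) (g j) (f i)).submatrix (g ∘ j.succAbove)
      (f ∘ i.succAbove) = (B c ε π st (Kx q (bump w (π z) (-(c / (1 - c * ε)))))).submatrix
        (g ∘ j.succAbove) (f ∘ i.succAbove) := by
    ext r s
    simp only [submatrix_apply, Function.comp_apply, hi, hj]
    exact sch_W hcε hw.cls hbump.cls hz (hgr r) (hfr s)
  rw [e1, e2, hi, hj, B_ft _ hz, B_tf _ hz]
  have IH' := IH (f ∘ i.succAbove) (g ∘ j.succAbove) v (bump w (π z) (-(c / (1 - c * ε))))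
    (hf.comp Fin.succAbove_right_injective) (hg.comp Fin.succAbove_right_injective)
    (fun _ _ => hd _ _) (fun _ => haf _) (fun _ => hag _) (hv.mono (Nat.le_succ k)) hbump
  have hs : ((-1:ℝ) ^ ((i : ℕ) + (j : ℕ))) * ((-1:ℝ) ^ ((j : ℕ) + (i : ℕ))) = 1 := by
    rw [add_comm (j : ℕ) (i : ℕ), ← mul_pow]; simp
  have : ∀ a b s t p : ℝ, s * 1 * a * (t * p * b) = (s * t) * (p * (a * b)) := by
    intros; ring
  rw [this, hs, one_mul]
  exact mul_nonneg hpos.le IH'

omit [DecidableEq J] in
lemma sq_rho_kap {x : Bool × J} (h : act st x) (hz : st x.2 ≠ .dbl) :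
    rho st x = kap st x := by
  rcases h with h | ⟨h, _⟩ | ⟨h, _⟩
  · exact absurd h hz
  · simp [rho, kap, h]
  · simp [rho, kap, h]

omit [DecidableEq J] in
lemma act_single_eq {x y : Bool × J} (hx : act st x) (hy : act st y) (hz : st x.2 ≠ .dbl)
    (h : x.2 = y.2) : x = y := by
  rcases x with ⟨b, z⟩
  rcases y with ⟨b', z'⟩
  simp only at h
  subst h
  rcases hx with hx | ⟨hx, hb⟩ | ⟨hx, hb⟩
  · exact absurd hx hz
  · rcases hy with hy | ⟨hy, hb'⟩ | ⟨hy, hb'⟩
    · exact absurd hy hz
    · simp only at hb hb'; rw [hb, hb']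
    · simp only at hx hy; rw [hx] at hy; exact absurd hy (by decide)
  · rcases hy with hy | ⟨hy, hb'⟩ | ⟨hy, hb'⟩
    · exact absurd hy hz
    · simp only at hx hy; rw [hx] at hy; exact absurd hy (by decide)
    · simp only at hb hb'; rw [hb, hb']

/-- determinants of minors with only single indices -/
lemma det_single (v : Fin 3 → ℝ) {k : ℕ} (f g : Fin k → Bool × J) (hd : ∀ i j, f i ≠ g j)
    (haf : ∀ i, act st (f i)) (hag : ∀ i, act st (g i)) (hsf : ∀ i, st (f i).2 ≠ .dbl) :
    ((B c ε π st (Kx q v)).submatrix f g).det =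
      (∏ i, rho st (f i)) * (∏ i, kap st (g i)) * c ^ k *
        ((Kx q v).submatrix (fun i => π (f i).2) (fun i => π (g i).2)).det := by
  have h1 : (B c ε π st (Kx q v)).submatrix f g =
      diagonal (fun i => rho st (f i)) *
        (c • (Kx q v).submatrix (fun i => π (f i).2) (fun i => π (g i).2)) *
        diagonal (fun i => kap st (g i)) := by
    ext i j
    rw [mul_diagonal, diagonal_mul, submatrix_apply]
    rw [B_off (Kx q v) (fun h => hd i j (act_single_eq (haf i) (hag j) (hsf i) h))]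
    simp only [Matrix.smul_apply, submatrix_apply, smul_eq_mul]
    ring
  rw [h1, det_mul, det_mul, det_diagonal, det_diagonal, det_smul, Fintype.card_fin]
  ring

theorem PP_all (hq : 0 < q) (hcε : c * ε < 1) (k : ℕ) : PP c ε q π st k := by
  induction k with
  | zero =>
    intro f g v w _ _ _ _ _ _ _
    simp
  | succ k IH =>
    intro f g v w hf hg hd haf hag hv hw
    by_cases h1 : ∃ i, (f i).1 = false ∧ st (f i).2 = .dbl
    · obtain ⟨i, hi1, hi2⟩ := h1
      exact pair_step hcε IH f g v w hf hg hd haf hag hv hw (i := i) (z := (f i).2)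
        (Prod.ext hi1 rfl) hi2
    by_cases h2 : ∃ i, (g i).1 = false ∧ st (g i).2 = .dbl
    · obtain ⟨i, hi1, hi2⟩ := h2
      rw [mul_comm]
      exact pair_step hcε IH g f w v hg hf (fun i j h => hd j i h.symm) hag haf hw hv (i := i)
        (z := (g i).2) (Prod.ext hi1 rfl) hi2
    push Not at h1 h2
    by_cases h3 : ∃ i, st (f i).2 = .dbl
    · obtain ⟨i, hi⟩ := h3
      have hfi : f i = (true, (f i).2) := by
        have : (f i).1 ≠ false := fun h => h1 i h hi
        exact Prod.ext (by simpa using this) rfl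
      rw [det_eq_zero_of_column_eq_zero (A := (B c ε π st (Kx q w)).submatrix g f) i, mul_zero]
      intro j
      rw [submatrix_apply, hfi]
      refine B_col_t _ hi (snd_ne (fun h => ?_) (fun h => hd i j (hfi.trans h.symm)))
      exact h2 j (by rw [h]) (by rw [h]; exact hi)
    by_cases h4 : ∃ i, st (g i).2 = .dbl
    · obtain ⟨i, hi⟩ := h4
      have hgi : g i = (true, (g i).2) := by
        have : (g i).1 ≠ false := fun h => h2 i h hi
        exact Prod.ext (by simpa using this) rfl
      rw [det_eq_zero_of_column_eq_zero (A := (B c ε π st (Kx q v)).submatrix f g) i, zero_mul]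
      intro j
      rw [submatrix_apply, hgi]
      refine B_col_t _ hi (snd_ne (fun h => ?_) (fun h => hd j i (h.trans hgi.symm)))
      exact h1 j (by rw [h]) (by rw [h]; exact hi)
    push Not at h3 h4
    rw [det_single v f g hd haf hag h3, det_single w g f (fun i j h => hd j i h.symm) hag haf h4]
    have hr : ∏ i, rho st (f i) = ∏ i, kap st (f i) :=
      Finset.prod_congr rfl fun i _ => sq_rho_kap (haf i) (h3 i)
    have hr' : ∏ i, rho st (g i) = ∏ i, kap st (g i) :=
      Finset.prod_congr rfl fun i _ => sq_rho_kap (hag i) (h4 i)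
    rw [hr, hr']
    have hm := minors_nonneg hq hv.cls hw.cls (fun i => π (f i).2) (fun i => π (g i).2)
    have : ∀ a b x y z : ℝ, a * b * z * x * (b * a * z * y) = (a * b * z) ^ 2 * (x * y) := by
      intros; ring
    rw [this]
    exact mul_nonneg (sq_nonneg _) hm

end Pool.Agent.Disp90
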