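import Pool.Agent.Disp90.Disj

/-!
Elimination of the common indices: all principal minors are positive and all products of minors
of dispersal at most `d` are nonnegative.
-/

namespace Pool.Agent.Disp90

open Matrix Finset

variable {J : Type*} [DecidableEq J]
variable {c ε q : ℝ} {π : J → Fin 3}

lemma upd_ne {st : J → St} {z : J} {s : St} {y : Bool × J} (h : y.2 ≠ z) :
    Function.update st z s y.2 = st y.2 := Function.update_of_ne h _ _

lemma B_upd {st : J → St} {z : J} {s : St} (K : Matrix (Fin 3) (Fin 3) ℝ) {y w : Bool × J}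
    (hy : y.2 ≠ z) (hw : w.2 ≠ z) :
    B c ε π (Function.update st z s) K y w = B c ε π st K y w := by
  simp only [B, of_apply, E, rho, kap, upd_ne hy, upd_ne hw]

lemma act_upd {st : J → St} {z : J} {s : St} {y : Bool × J} (hy : y.2 ≠ z) (h : act st y) :
    act (Function.update st z s) y := by
  unfold act at h ⊢
  rw [upd_ne hy]
  exact h

lemma step_single (hε : 0 < ε) (hc : 0 < c) (hq : 0 < q) {st : J → St} {v : Fin 3 → ℝ}
    (hv : Cls q v) {x : Bool × J} (hx : act st x) (hs : st x.2 ≠ .dbl) :
    (∀ y w : Bool × J, act st y → act st w → y ≠ x → w ≠ x →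
      sch (B c ε π st (Kx q v)) x x y w =
        B c ε π (Function.update st x.2 .off) (Kx q (bump v (π x.2) (1 / ε))) y w) ∧
    0 < B c ε π st (Kx q v) x x := by
  have hK := Kx_pos hq hv (π x.2) (π x.2)
  have hv' : Cls q (bump v (π x.2) (1 / ε)) := by
    refine hv.mono fun p => ?_
    simp only [bump]
    have : 0 < 1 / ε := by positivity
    split_ifs <;> linarith
  have hrk : rho st x * kap st x = 1 := by
    rcases hx with h | ⟨h, _⟩ | ⟨h, _⟩
    · exact absurd h hs
    · simp [rho, kap, h]
    · simp [rho, kap, h]
  have hxx : B c ε π st (Kx q v) x x = c * ε + c * Kx q v (π x.2) (π x.2) := by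
    simp only [B, of_apply, E, Mm]
    rw [hrk]
    simp [hs]
  refine ⟨?_, by rw [hxx]; positivity⟩
  intro y w hy hw hyx hwx
  have hy2 : y.2 ≠ x.2 := fun h => hyx (act_single_eq hx hy hs h.symm).symm
  have hw2 : w.2 ≠ x.2 := fun h => hwx (act_single_eq hx hw hs h.symm).symm
  rw [B_upd _ hy2 hw2]
  simp only [sch, of_apply]
  rw [hxx, B_off (Kx q v) hy2, B_off (Kx q v) (x := x) (y := w) (Ne.symm hw2)]
  simp only [B, of_apply, Mm]
  rw [Kx_bump q v (π x.2) _ hv.2.ne' hv'.2.ne']
  have h1 : 1 / ε / (1 + 1 / ε * Kx q v (π x.2) (π x.2)) = 1 / (ε + Kx q v (π x.2) (π x.2)) := by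
    field_simp
  rw [h1]
  have h2 : c * ε + c * Kx q v (π x.2) (π x.2) = c * (ε + Kx q v (π x.2) (π x.2)) := by ring
  rw [h2]
  have h3 : ε + Kx q v (π x.2) (π x.2) ≠ 0 := by positivity
  have h4 : rho st y * kap st x * (c * Kx q v (π y.2) (π x.2)) *
      (rho st x * kap st w * (c * Kx q v (π x.2) (π w.2))) =
      (rho st x * kap st x) * (rho st y * kap st w *
      (c * Kx q v (π y.2) (π x.2) * (c * Kx q v (π x.2) (π w.2)))) := by ring
  rw [h4, hrk]
  field_simp
  ring

/-- pivot on the first copy of a double index -/
lemma step_f {st : J → St} (K : Matrix (Fin 3) (Fin 3) ℝ) {z : J} (hz : st z = .dbl)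
    (y w : Bool × J) (hy : y ≠ (false, z)) (hw : w ≠ (false, z)) :
    sch (B c ε π st K) (false, z) (false, z) y w =
      B c ε π (Function.update st z .sm) K y w := by
  have hxx : B c ε π st K (false, z) (false, z) = 1 := by
    simp [B, E, rho, hz]
  have hrow : ∀ u : Bool × J, u.2 ≠ z → B c ε π st K (false, z) u = 0 := fun u hu =>
    B_row_f _ hz hu
  by_cases hw2 : w.2 = z
  · have hwt : w = (true, z) := by
      rcases w with ⟨b, w2⟩
      simp only at hw2
      subst hw2
      cases b
      · exact absurd rfl hw
      · rfl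
    subst hwt
    by_cases hy2 : y.2 = z
    · have hyt : y = (true, z) := by
        rcases y with ⟨b, y2⟩
        simp only at hy2
        subst hy2
        cases b
        · exact absurd rfl hy
        · rfl
      subst hyt
      simp [sch, B, E, rho, kap, hz, Mm]
    · simp [sch, B, E, rho, kap, hz, Mm, hy2]
  · simp only [sch, of_apply]
    rw [hrow w hw2]
    by_cases hy2 : y.2 = z
    · have hyt : y = (true, z) := by
        rcases y with ⟨b, y2⟩
        simp only at hy2
        subst hy2
        cases b
        · exact absurd rfl hy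
        · rfl
      subst hyt
      simp [B, E, rho, kap, hz, Mm, Ne.symm hw2, Function.update_of_ne hw2]
    · rw [B_upd _ hy2 hw2]; ring

/-- pivot on the second copy of a double index -/
lemma step_t {st : J → St} (K : Matrix (Fin 3) (Fin 3) ℝ) {z : J} (hz : st z = .dbl)
    (y w : Bool × J) (hy : y ≠ (true, z)) (hw : w ≠ (true, z)) :
    sch (B c ε π st K) (true, z) (true, z) y w =
      B c ε π (Function.update st z .sp) K y w := by
  have hcol : ∀ u : Bool × J, u.2 ≠ z → B c ε π st K u (true, z) = 0 := fun u hu =>
    B_col_t _ hz hu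
  by_cases hy2 : y.2 = z
  · have hyt : y = (false, z) := by
      rcases y with ⟨b, y2⟩
      simp only at hy2
      subst hy2
      cases b
      · rfl
      · exact absurd rfl hy
    subst hyt
    by_cases hw2 : w.2 = z
    · have hwt : w = (false, z) := by
        rcases w with ⟨b, w2⟩
        simp only at hw2
        subst hw2
        cases b
        · rfl
        · exact absurd rfl hw
      subst hwt
      simp [sch, B, E, rho, kap, hz, Mm]
    · simp [sch, B, E, rho, kap, hz, Mm, Ne.symm hw2, Function.update_of_ne hw2]
  · simp only [sch, of_apply]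
    rw [hcol y hy2]
    by_cases hw2 : w.2 = z
    · have hwt : w = (false, z) := by
        rcases w with ⟨b, w2⟩
        simp only at hw2
        subst hw2
        cases b
        · rfl
        · exact absurd rfl hw
      subst hwt
      simp [B, E, rho, kap, hz, Mm, hy2]
    · rw [B_upd _ hy2 hw2]; ring

/-- one elimination step -/
lemma exists_step (hε : 0 < ε) (hc : 0 < c) (hq : 0 < q) (st : J → St) (v : Fin 3 → ℝ)
    (hv : Cls q v) {x : Bool × J} (hx : act st x) :
    ∃ (st' : J → St) (v' : Fin 3 → ℝ), (∀ y, act st y → y ≠ x → act st' y) ∧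
      (∀ y w : Bool × J, act st y → act st w → y ≠ x → w ≠ x →
        sch (B c ε π st (Kx q v)) x x y w = B c ε π st' (Kx q v') y w) ∧
      (∀ (k : ℕ) (c' : ℝ), Bud q c' k v → Bud q c' k v') ∧ Cls q v' ∧
      0 < B c ε π st (Kx q v) x x := by
  by_cases hs : st x.2 = .dbl
  · rcases x with ⟨b, z⟩
    simp only at hs
    cases b
    · refine ⟨Function.update st z .sm, v, ?_, fun y w _ _ hy hw => step_f _ hs y w hy hw,
        fun _ _ h => h, hv, ?_⟩
      · intro y hy hyx
        by_cases hy2 : y.2 = z
        · right; right
          rcases y with ⟨b, y2⟩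
          simp only at hy2
          subst hy2
          cases b
          · exact absurd rfl hyx
          · simp
        · exact act_upd hy2 hy
      · have : B c ε π st (Kx q v) (false, z) (false, z) = 1 := by simp [B, E, rho, hs]
        rw [this]; exact one_pos
    · refine ⟨Function.update st z .sp, v, ?_, fun y w _ _ hy hw => step_t _ hs y w hy hw,
        fun _ _ h => h, hv, ?_⟩
      · intro y hy hyx
        by_cases hy2 : y.2 = z
        · right; left
          rcases y with ⟨b, y2⟩
          simp only at hy2
          subst hy2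
          cases b
          · simp
          · exact absurd rfl hyx
        · exact act_upd hy2 hy
      · have : B c ε π st (Kx q v) (true, z) (true, z) = 1 := by simp [B, E, kap, hs]
        rw [this]; exact one_pos
  · obtain ⟨h1, h2⟩ := step_single (π := π) hε hc hq hv hx hs
    have hnn : (0:ℝ) ≤ 1 / ε := by positivity
    refine ⟨_, _, ?_, h1, fun _ _ h => h.inc _ hnn, ?_, h2⟩
    · intro y hy hyx
      exact act_upd (fun h => hyx (act_single_eq hx hy hs h.symm).symm) hy
    · refine hv.mono fun p => ?_
      simp only [bump]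
      split_ifs <;> linarith

/-- principal minors are positive -/
theorem pos_all (hε : 0 < ε) (hc : 0 < c) (hq : 0 < q) (k : ℕ) :
    ∀ (st : J → St) (v : Fin 3 → ℝ) (f : Fin k → Bool × J), Cls q v → Function.Injective f →
      (∀ i, act st (f i)) → 0 < ((B c ε π st (Kx q v)).submatrix f f).det := by
  induction k with
  | zero => intro st v f _ _ _; simp
  | succ k IH =>
    intro st v f hv hf ha
    obtain ⟨st', v', h1, h2, h3, h4, h5⟩ := exists_step (π := π) hε hc hq st v hv (ha 0)
    rw [det_pivot _ f f 0 0 h5.ne']
    have hne : ∀ r : Fin k, f ((0 : Fin (k + 1)).succAbove r) ≠ f 0 := fun r h =>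
      Fin.succAbove_ne 0 r (hf h)
    have e1 : (sch (B c ε π st (Kx q v)) (f 0) (f 0)).submatrix (f ∘ (0 : Fin (k+1)).succAbove)
        (f ∘ (0 : Fin (k+1)).succAbove) = (B c ε π st' (Kx q v')).submatrix
          (f ∘ (0 : Fin (k+1)).succAbove) (f ∘ (0 : Fin (k+1)).succAbove) := by
      ext r s
      simp only [submatrix_apply, Function.comp_apply]
      exact h2 _ _ (ha _) (ha _) (hne r) (hne s)
    rw [e1]
    have := IH st' v' (f ∘ (0 : Fin (k+1)).succAbove) h4
      (hf.comp Fin.succAbove_right_injective) (fun i => h1 _ (ha _) (hne i))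
    simp only [Fin.val_zero, add_zero, pow_zero, one_mul]
    exact mul_pos h5 this

/-- products of minors of dispersal at most `d` -/
theorem nonneg_all (hε : 0 < ε) (hc : 0 < c) (hq : 0 < q) (hcε : c * ε < 1) (d k : ℕ) :
    ∀ (st : J → St) (v : Fin 3 → ℝ) (f g : Fin k → Bool × J),
      Bud q (c / (1 - c * ε)) d v → Function.Injective f → Function.Injective g →
      (∀ i j, f i = g j → i = j) → (∀ i, act st (f i)) → (∀ i, act st (g i)) →
      (Finset.univ.filter fun i => f i ≠ g i).card ≤ d →
      0 ≤ ((B c ε π st (Kx q v)).submatrix f g).det *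
        ((B c ε π st (Kx q v)).submatrix g f).det := by
  induction k with
  | zero => intro st v f g _ _ _ _ _ _ _; simp
  | succ k IH =>
    intro st v f g hv hf hg hm haf hag hcard
    by_cases hex : ∃ i, f i = g i
    swap
    · push Not at hex
      have h1 : (Finset.univ.filter fun i => f i ≠ g i) = Finset.univ :=
        Finset.filter_true_of_mem fun i _ => hex i
      rw [h1, Finset.card_univ, Fintype.card_fin] at hcard
      exact PP_all hq hcε (k + 1) f g v v hf hg (fun i j h => hex i (by
        have := hm i j h; rw [← this] at h; exact h)) haf hag (hv.mono hcard) (hv.mono hcard)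
    · obtain ⟨i, hi⟩ := hex
      obtain ⟨st', v', h1, h2, h3, h4, h5⟩ := exists_step (π := π) hε hc hq st v hv.cls (haf i)
      have h5' : B c ε π st (Kx q v) (f i) (g i) ≠ 0 := by rw [← hi]; exact h5.ne'
      have h5'' : B c ε π st (Kx q v) (g i) (f i) ≠ 0 := by rw [← hi]; exact h5.ne'
      rw [det_pivot _ f g i i h5', det_pivot _ g f i i h5'', ← hi]
      have hne : ∀ r : Fin k, f (i.succAbove r) ≠ f i := fun r h =>
        Fin.succAbove_ne i r (hf h)
      have hne' : ∀ r : Fin k, g (i.succAbove r) ≠ f i := fun r h =>
        Fin.succAbove_ne i r (hg (h.trans hi))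
      have e1 : (sch (B c ε π st (Kx q v)) (f i) (f i)).submatrix (f ∘ i.succAbove)
          (g ∘ i.succAbove) = (B c ε π st' (Kx q v')).submatrix
            (f ∘ i.succAbove) (g ∘ i.succAbove) := by
        ext r s
        simp only [submatrix_apply, Function.comp_apply]
        exact h2 _ _ (haf _) (hag _) (hne r) (hne' s)
      have e2 : (sch (B c ε π st (Kx q v)) (f i) (f i)).submatrix (g ∘ i.succAbove)
          (f ∘ i.succAbove) = (B c ε π st' (Kx q v')).submatrix
            (g ∘ i.succAbove) (f ∘ i.succAbove) := by
        ext r s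
        simp only [submatrix_apply, Function.comp_apply]
        exact h2 _ _ (hag _) (haf _) (hne' r) (hne s)
      rw [e1, e2]
      have hc' : (Finset.univ.filter fun r : Fin k => (f ∘ i.succAbove) r ≠ (g ∘ i.succAbove) r).card
          ≤ d := by
        refine le_trans (Finset.card_le_card_of_injOn i.succAbove ?_
          (Fin.succAbove_right_injective.injOn)) hcard
        intro r hr
        simp only [Finset.coe_filter, Finset.mem_univ, true_and, Set.mem_ofPred_eq,
          Function.comp_apply] at hr ⊢
        exact hr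
      have IH' := IH st' v' (f ∘ i.succAbove) (g ∘ i.succAbove) (h3 d _ hv)
        (hf.comp Fin.succAbove_right_injective) (hg.comp Fin.succAbove_right_injective)
        (fun a b h => Fin.succAbove_right_injective (hm _ _ h))
        (fun r => h1 _ (haf _) (hne r)) (fun r => h1 _ (hag _) (hne' r)) hc'
      have : ∀ s x a b : ℝ, s * x * a * (s * x * b) = (s * x) ^ 2 * (a * b) := by
        intros; ring
      rw [this]
      exact mul_nonneg (sq_nonneg _) IH'

end Pool.Agent.Disp90
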