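import Pool.Agent.Disp90.Kmat

/-!
Sign coherence of the minors of the matrices `Kx q v`.
-/

namespace Pool.Agent.Disp90

open Matrix Finset

/-- Levi-Civita symbol -/
def cr (a b u : Fin 3) : ℝ :=
  !![!![0,0,0;0,0,1;0,-1,0] b u, 0, 0; 0, !![0,0,-1;0,0,0;1,0,0] b u, 0; 0, 0,
    !![0,1,0;-1,0,0;0,0,0] b u] a a

/-- `N = diag v - q C` -/
def Nm (q : ℝ) (v : Fin 3 → ℝ) (i j : Fin 3) : ℝ := !![v 0, -q, 0; 0, v 1, -q; -q, 0, v 2] i j

lemma minor_two (q : ℝ) (v : Fin 3 → ℝ) (h : Dl q v ≠ 0) (a b c d : Fin 3) :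
    Kx q v a c * Kx q v b d - Kx q v a d * Kx q v b c =
      (∑ u, ∑ w, cr a b u * cr c d w * Nm q v w u) / Dl q v := by
  simp only [Kx, of_apply]
  rw [div_mul_div_comm, div_mul_div_comm, ← sub_div, div_eq_div_iff (mul_ne_zero h h) h]
  rw [← mul_assoc]
  congr 1
  simp only [Fin.sum_univ_three]
  fin_cases a <;> fin_cases b <;> fin_cases c <;> fin_cases d <;> simp [Dl, cr, Nm] <;> ring

lemma prod_two {q : ℝ} (_hq : 0 < q) {v w : Fin 3 → ℝ} (hv : Cls q v) (hw : Cls q w)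
    (a b c d : Fin 3) :
    0 ≤ (Kx q v a c * Kx q v b d - Kx q v a d * Kx q v b c) *
      (Kx q w c a * Kx q w d b - Kx q w c b * Kx q w d a) := by
  rw [minor_two q v hv.2.ne', minor_two q w hw.2.ne', div_mul_div_comm]
  refine div_nonneg ?_ (mul_pos hv.2 hw.2).le
  have hv0 := hv.1 0
  have hv1 := hv.1 1
  have hv2 := hv.1 2
  have hw0 := hw.1 0
  have hw1 := hw.1 1
  have hw2 := hw.1 2
  simp only [Fin.sum_univ_three]
  fin_cases a <;> fin_cases b <;> fin_cases c <;> fin_cases d <;> simp [cr, Nm] <;> positivity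

lemma det_Kx {q : ℝ} {v : Fin 3 → ℝ} (h : Dl q v ≠ 0) : (Kx q v).det = 1 / Dl q v := by
  rw [det_fin_three]
  simp only [Kx, of_apply]
  field_simp
  simp [Dl]
  ring

theorem minors_nonneg {q : ℝ} (hq : 0 < q) {v w : Fin 3 → ℝ} (hv : Cls q v) (hw : Cls q w)
    {k : ℕ} (p r : Fin k → Fin 3) :
    0 ≤ ((Kx q v).submatrix p r).det * ((Kx q w).submatrix r p).det := by
  by_cases hp : Function.Injective p
  swap
  · simp only [Function.Injective, not_forall] at hp
    obtain ⟨i, j, hij, hne⟩ := hp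
    rw [det_zero_of_row_eq hne (by ext x; simp [hij]), zero_mul]
  by_cases hr : Function.Injective r
  swap
  · simp only [Function.Injective, not_forall] at hr
    obtain ⟨i, j, hij, hne⟩ := hr
    rw [det_zero_of_column_eq hne (by intro x; simp [hij]), zero_mul]
  have hk : k ≤ 3 := by simpa using Fintype.card_le_of_injective p hp
  interval_cases k
  · simp
  · simp only [det_fin_one, submatrix_apply]
    exact (mul_pos (Kx_pos hq hv _ _) (Kx_pos hq hw _ _)).le
  · simp only [det_fin_two, submatrix_apply]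
    exact prod_two hq hv hw _ _ _ _
  · let σ : Equiv.Perm (Fin 3) := Equiv.ofBijective p (Finite.injective_iff_bijective.mp hp)
    let τ : Equiv.Perm (Fin 3) := Equiv.ofBijective r (Finite.injective_iff_bijective.mp hr)
    have h1 : (Kx q v).submatrix p r = ((Kx q v).submatrix id τ).submatrix σ id := rfl
    have h2 : (Kx q w).submatrix r p = ((Kx q w).submatrix id σ).submatrix τ id := rfl
    rw [h1, h2, det_permute, det_permute, det_permute', det_permute', det_Kx hv.2.ne',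
      det_Kx hw.2.ne']
    have h3 : ((Equiv.Perm.sign σ : ℤ) : ℝ) * ((Equiv.Perm.sign σ : ℤ) : ℝ) = 1 := by
      rw [← Int.cast_mul]; simp
    have h4 : ((Equiv.Perm.sign τ : ℤ) : ℝ) * ((Equiv.Perm.sign τ : ℤ) : ℝ) = 1 := by
      rw [← Int.cast_mul]; simp
    have h5 : ((Equiv.Perm.sign σ : ℤ) : ℝ) * (((Equiv.Perm.sign τ : ℤ) : ℝ) * (1 / Dl q v)) *
        (((Equiv.Perm.sign τ : ℤ) : ℝ) * (((Equiv.Perm.sign σ : ℤ) : ℝ) * (1 / Dl q w))) =
        (((Equiv.Perm.sign σ : ℤ) : ℝ) * ((Equiv.Perm.sign σ : ℤ) : ℝ)) *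
        (((Equiv.Perm.sign τ : ℤ) : ℝ) * ((Equiv.Perm.sign τ : ℤ) : ℝ)) *
        ((1 / Dl q v) * (1 / Dl q w)) := by ring
    rw [h5, h3, h4]
    have := hv.2
    have := hw.2
    positivity

end Pool.Agent.Disp90
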