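import Pool.Agent.Disp90.Pivot
import Pool.Agent.Disp90.Minors

/-!
The family of matrices closed under Schur complements, and the sign of its minors with disjoint
row and column sets.
-/

namespace Pool.Agent.Disp90

open Matrix Finset

/-- status of an index `j ∈ J`: both copies present, only the first, only the second, none -/
inductive St
  | dbl | sp | sm | off
  deriving DecidableEq

variable {J : Type*} [DecidableEq J]

/-- the indices which are still present -/
def act (st : J → St) (x : Bool × J) : Prop :=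
  st x.2 = .dbl ∨ (st x.2 = .sp ∧ x.1 = false) ∨ (st x.2 = .sm ∧ x.1 = true)

/-- row coefficient -/
def rho (st : J → St) (x : Bool × J) : ℝ :=
  match st x.2 with
  | .dbl => if x.1 then -1 else 0
  | .sp => 1
  | .sm => -1
  | .off => 0

/-- column coefficient -/
def kap (st : J → St) (x : Bool × J) : ℝ :=
  match st x.2 with
  | .dbl => if x.1 then 0 else 1
  | .sp => 1
  | .sm => -1
  | .off => 0

/-- the sparse part -/
def E (st : J → St) (x y : Bool × J) : ℝ := if x.2 = y.2 ∧ st x.2 = .dbl then 1 else 0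

/-- the matrix `M = c (ε + K ∘ π)` -/
def Mm (c ε : ℝ) (π : J → Fin 3) (K : Matrix (Fin 3) (Fin 3) ℝ) (i j : J) : ℝ :=
  (if i = j then c * ε else 0) + c * K (π i) (π j)

/-- the family -/
def B (c ε : ℝ) (π : J → Fin 3) (st : J → St) (K : Matrix (Fin 3) (Fin 3) ℝ) :
    Matrix (Bool × J) (Bool × J) ℝ :=
  of fun x y => E st x y + rho st x * kap st y * Mm c ε π K x.2 y.2

/-- `k` negative updates of size `c'` keep `v` in the class -/
def Bud (q c' : ℝ) (k : ℕ) (v : Fin 3 → ℝ) : Prop :=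
  ∀ w : Fin 3 → ℕ, w 0 + w 1 + w 2 ≤ k → Cls q (fun p => v p - c' * w p)

lemma Bud.cls {q c' : ℝ} {k : ℕ} {v : Fin 3 → ℝ} (h : Bud q c' k v) : Cls q v := by
  have := h (fun _ => 0) (by simp)
  simpa using this

lemma Bud.mono {q c' : ℝ} {k k' : ℕ} {v : Fin 3 → ℝ} (h : Bud q c' k v) (hk : k' ≤ k) :
    Bud q c' k' v := fun w hw => h w (hw.trans hk)

lemma Bud.dec {q c' : ℝ} {k : ℕ} {v : Fin 3 → ℝ} (h : Bud q c' (k + 1) v) (x : Fin 3) :
    Bud q c' k (bump v x (-c')) := by
  intro w hw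
  have h1 := h (fun p => w p + if p = x then 1 else 0) (by
    fin_cases x <;> simp <;> omega)
  have h2 : (fun p => v p - c' * ((w p + if p = x then 1 else 0 : ℕ) : ℝ)) =
      (fun p => bump v x (-c') p - c' * (w p : ℝ)) := by
    funext p
    simp only [bump]
    split_ifs <;> push_cast <;> ring
  rw [h2] at h1
  exact h1

lemma Cls.mono {q : ℝ} {v w : Fin 3 → ℝ} (h : Cls q v) (hvw : ∀ p, v p ≤ w p) : Cls q w := by
  refine ⟨fun p => lt_of_lt_of_le (h.1 p) (hvw p), lt_of_lt_of_le h.2 ?_⟩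
  unfold Dl
  have h0 := h.1 0
  have h1 := h.1 1
  have h2 := h.1 2
  have : v 0 * v 1 * v 2 ≤ w 0 * w 1 * w 2 := by
    have e0 := hvw 0
    have e1 := hvw 1
    have e2 := hvw 2
    have f0 : 0 ≤ w 0 := h0.le.trans e0
    have f1 : 0 ≤ w 1 := h1.le.trans e1
    exact mul_le_mul (mul_le_mul e0 e1 h1.le f0) e2 h2.le (mul_nonneg f0 f1)
  linarith

lemma Bud.inc {q c' : ℝ} {k : ℕ} {v : Fin 3 → ℝ} (h : Bud q c' k v) (x : Fin 3) {t : ℝ}
    (ht : 0 ≤ t) : Bud q c' k (bump v x t) := by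
  intro w hw
  refine (h w hw).mono fun p => ?_
  simp only [bump]
  split_ifs <;> linarith

section pair

variable {c ε q : ℝ} {π : J → Fin 3} {st : J → St}

lemma B_ft (K : Matrix (Fin 3) (Fin 3) ℝ) {z : J} (hz : st z = .dbl) :
    B c ε π st K (false, z) (true, z) = 1 := by
  simp [B, E, rho, kap, hz]

lemma B_tf (K : Matrix (Fin 3) (Fin 3) ℝ) {z : J} (hz : st z = .dbl) :
    B c ε π st K (true, z) (false, z) = 1 - c * ε - c * K (π z) (π z) := by
  simp [B, E, rho, kap, hz, Mm]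
  ring

lemma B_col_t (K : Matrix (Fin 3) (Fin 3) ℝ) {z : J} (hz : st z = .dbl) {y : Bool × J}
    (hy : y.2 ≠ z) : B c ε π st K y (true, z) = 0 := by
  simp [B, E, kap, hz, hy]

lemma B_row_f (K : Matrix (Fin 3) (Fin 3) ℝ) {z : J} (hz : st z = .dbl) {y : Bool × J}
    (hy : y.2 ≠ z) : B c ε π st K (false, z) y = 0 := by
  simp [B, E, rho, hz, Ne.symm hy]

lemma B_off (K : Matrix (Fin 3) (Fin 3) ℝ) {x y : Bool × J} (h : x.2 ≠ y.2) :
    B c ε π st K x y = rho st x * kap st y * (c * K (π x.2) (π y.2)) := by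
  simp [B, E, Mm, h]

/-- the update in the `W` case -/
lemma sch_W (hcε : c * ε < 1) {v : Fin 3 → ℝ} (hv : Cls q v) {z : J}
    (hv' : Cls q (bump v (π z) (-(c / (1 - c * ε)))))
    (hz : st z = .dbl) {y w : Bool × J} (hy : y.2 ≠ z) (hw : w.2 ≠ z) :
    sch (B c ε π st (Kx q v)) (true, z) (false, z) y w =
      B c ε π st (Kx q (bump v (π z) (-(c / (1 - c * ε))))) y w := by
  have h1 : 1 + -(c / (1 - c * ε)) * Kx q v (π z) (π z) =
      Dl q (bump v (π z) (-(c / (1 - c * ε)))) / Dl q v := one_add_Kx q v _ _ hv.2.ne'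
  have h2 : 0 < 1 + -(c / (1 - c * ε)) * Kx q v (π z) (π z) := by
    rw [h1]; exact div_pos hv'.2 hv.2
  have h3 : (0:ℝ) < 1 - c * ε := by linarith
  have h4 : 1 - c * ε - c * Kx q v (π z) (π z) =
      (1 - c * ε) * (1 + -(c / (1 - c * ε)) * Kx q v (π z) (π z)) := by
    field_simp
    ring
  have h5 : 0 < 1 - c * ε - c * Kx q v (π z) (π z) := by
    rw [h4]; exact mul_pos h3 h2
  have h6 : -(c / (1 - c * ε)) / (1 + -(c / (1 - c * ε)) * Kx q v (π z) (π z)) =
      - (c / (1 - c * ε - c * Kx q v (π z) (π z))) := by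
    rw [h4]
    field_simp
  simp only [sch, of_apply]
  rw [B_tf _ hz, B_off (Kx q v) (x := y) (y := (false, z)) hy,
    B_off (Kx q v) (x := (true, z)) (y := w) (Ne.symm hw)]
  simp only [B, of_apply, Mm]
  rw [Kx_bump q v (π z) _ hv.2.ne' hv'.2.ne', h6]
  have h7 : rho st (true, z) = -1 := by simp [rho, hz]
  have h8 : kap st (false, z) = 1 := by simp [kap, hz]
  rw [h7, h8]
  field_simp
  ring

end pair

end Pool.Agent.Disp90
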