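import Pool.Agent.Disp90.Unst

/-!
For every `d ≥ 1` and every `n ≥ 288 d` there is an unstable `P`-matrix of order `n` satisfying
`(S_d)`.
-/

namespace Pool.Agent.Disp90

open Matrix Finset Pool.Agent.Disp71

lemma Dl_one : Dl (5/8) (fun _ => 1) = 387 / 512 := by
  unfold Dl; norm_num

lemma prod_ge {a b c : ℝ} (ha : 0 ≤ a) (hb : 0 ≤ b) (hc : 0 ≤ c) (h : a + b + c < 1) :
    1 - (a + b + c) ≤ (1 - a) * (1 - b) * (1 - c) := by
  have h1 : 1 - (a + b) ≤ (1 - a) * (1 - b) := by nlinarith [mul_nonneg ha hb]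
  have h2 : (1 - (a + b)) * (1 - c) ≤ (1 - a) * (1 - b) * (1 - c) :=
    mul_le_mul_of_nonneg_right h1 (by linarith)
  have h3 : 1 - (a + b + c) ≤ (1 - (a + b)) * (1 - c) := by
    nlinarith [mul_nonneg (add_nonneg ha hb) hc]
  linarith

lemma bud_one {c' : ℝ} (d : ℕ) (hc' : 0 ≤ c') (h : c' * d < 387 / 512) :
    Bud (5/8) c' d (fun _ => 1) := by
  intro w hw
  have h0 : 0 ≤ c' * (w 0 : ℝ) := by positivity
  have h1 : 0 ≤ c' * (w 1 : ℝ) := by positivity
  have h2 : 0 ≤ c' * (w 2 : ℝ) := by positivity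
  have hsum : c' * (w 0 : ℝ) + c' * (w 1 : ℝ) + c' * (w 2 : ℝ) < 387 / 512 := by
    have h3 : ((w 0 + w 1 + w 2 : ℕ) : ℝ) ≤ d := by exact_mod_cast hw
    push_cast at h3
    have h4 : c' * ((w 0 : ℝ) + w 1 + w 2) ≤ c' * d := mul_le_mul_of_nonneg_left h3 hc'
    linarith
  constructor
  · intro p
    fin_cases p <;> simp <;> linarith
  · have := prod_ge h0 h1 h2 (by linarith)
    simp only [Dl]
    norm_num
    linarith

theorem unstable (d m : ℕ) (hd : 1 ≤ d) : ∃ A : Matrix (Fin (288 * d + m)) (Fin (288 * d + m)) ℝ,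
    IsP A ∧ CondS d A ∧ ¬ IsStable A := by
  have hdr : (1:ℝ) ≤ d := by exact_mod_cast hd
  set ε : ℝ := 1 / 1000 with hε
  set c : ℝ := 387 / 512 / (d + ε) with hc
  have hεp : 0 < ε := by rw [hε]; norm_num
  have hdε : 0 < (d:ℝ) + ε := by linarith
  have hcp : 0 < c := by rw [hc]; positivity
  have hc1 : c ≤ 1 := by
    rw [hc, div_le_one hdε]; linarith
  have hcε : c * ε < 1 := by
    have : c * ε ≤ 1 * ε := mul_le_mul_of_nonneg_right hc1 hεp.le
    rw [hε] at this ⊢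
    linarith
  have h1ε : 0 < 1 - c * ε := by linarith
  have hbud : Bud (5/8) (c / (1 - c * ε)) d (fun _ => 1) := by
    refine bud_one d (by positivity) ?_
    rw [div_mul_eq_mul_div, div_lt_iff₀ h1ε]
    have : c * (d + ε) = 387 / 512 := by rw [hc]; field_simp
    nlinarith [mul_pos hcp hεp]
  have hact : ∀ x : Bool × JJ (48 * d), act (fun _ => St.dbl) x := fun x => Or.inl rfl
  have hPG : PG (A0 c ε (5/8) (48 * d)) := fun k f hf =>
    pos_all hεp hcp (by norm_num) k _ _ f hbud.cls hf (fun i => hact _)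
  have hSG : SG d (A0 c ε (5/8) (48 * d)) := fun k f g hf hg hm hcard =>
    nonneg_all hεp hcp (by norm_num) hcε d k _ _ f g hbud hf hg hm (fun i => hact _)
      (fun i => hact _) hcard
  have hUS : US (A0 c ε (5/8) (48 * d)) := by
    refine A0_US c ε (5/8) (48 * d) (by omega) ?_
    rw [kev_re, kev_im, Dl_one]
    set X : ℝ := 48 * d / (d + ε) with hX
    have hXl : 47.95 ≤ X := by
      rw [hX, le_div_iff₀ hdε, hε]; linarith
    have e1 : c * ((48 * d : ℕ) : ℝ) = 387 / 512 * X := by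
      rw [hc, hX]; push_cast; field_simp
    rw [e1]
    have h3 : Real.sqrt 3 ^ 2 = 3 := Real.sq_sqrt (by norm_num)
    have e2 : (387 / 512 * X * (Real.sqrt 3 / 2 * (5 / 8 - (5 / 8) ^ 2) / (387 / 512))) ^ 2 =
        X ^ 2 * (675 / 16384) := by
      have : (387 / 512 * X * (Real.sqrt 3 / 2 * (5 / 8 - (5 / 8) ^ 2) / (387 / 512))) ^ 2 =
        X ^ 2 * (Real.sqrt 3 ^ 2 * (225 / 16384)) := by ring
      rw [this, h3]; ring
    rw [e2]
    have hce : c * ε ≤ 1 / 1000 := by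
      have : c * ε ≤ 1 * ε := mul_le_mul_of_nonneg_right hc1 hεp.le
      rw [hε] at this ⊢
      linarith
    nlinarith
  have hcard : Fintype.card ((Bool × JJ (48 * d)) ⊕ Fin m) = 288 * d + m := by
    simp only [Fintype.card_sum, Fintype.card_prod, Fintype.card_bool, Fintype.card_fin]
    ring
  exact to_fin hcard (DS_PG (κ := Fin m) hPG) (DS_SG (κ := Fin m) hSG) (DS_US (κ := Fin m) hUS)

/-- for every `d` and every `n ≥ 288 max (d,1)` there is an unstable `P`-matrix with `(S_d)` -/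
theorem unstable' (d n : ℕ) (hd : 1 ≤ d) (hn : 288 * d ≤ n) :
    ∃ A : Matrix (Fin n) (Fin n) ℝ, IsP A ∧ CondS d A ∧ ¬ IsStable A := by
  obtain ⟨m, rfl⟩ := Nat.exists_eq_add_of_le hn
  exact unstable d m hd

end Pool.Agent.Disp90
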