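import Mathlib

/-!
The `3 × 3` matrices `K = N⁻¹`, `N = diag v - q C` (`C` the cyclic permutation matrix), written
out explicitly.
-/

namespace Pool.Agent.Disp90

open Matrix Finset

/-- determinant of `N` -/
def Dl (q : ℝ) (v : Fin 3 → ℝ) : ℝ := v 0 * v 1 * v 2 - q ^ 3

/-- the inverse of `N = diag v - q C` -/
noncomputable def Kx (q : ℝ) (v : Fin 3 → ℝ) : Matrix (Fin 3) (Fin 3) ℝ :=
  of fun i j => (!![v 1 * v 2, q * v 2, q ^ 2; q ^ 2, v 0 * v 2, q * v 0;
    q * v 1, q ^ 2, v 0 * v 1] i j) / Dl q v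

/-- the class of admissible parameters -/
def Cls (q : ℝ) (v : Fin 3 → ℝ) : Prop := (∀ p, 0 < v p) ∧ 0 < Dl q v

lemma Kx_pos {q : ℝ} (hq : 0 < q) {v : Fin 3 → ℝ} (h : Cls q v) (i j : Fin 3) :
    0 < Kx q v i j := by
  have h0 := h.1 0
  have h1 := h.1 1
  have h2 := h.1 2
  have h3 := h.2
  simp only [Kx, of_apply]
  refine div_pos ?_ h3
  fin_cases i <;> fin_cases j <;> simp <;> positivity

/-- adding `t` to the coordinate `x` -/
def bump (v : Fin 3 → ℝ) (x : Fin 3) (t : ℝ) : Fin 3 → ℝ := fun p => if p = x then v p + t else v p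

lemma one_add_Kx (q : ℝ) (v : Fin 3 → ℝ) (x : Fin 3) (t : ℝ) (h : Dl q v ≠ 0) :
    1 + t * Kx q v x x = Dl q (bump v x t) / Dl q v := by
  rw [eq_div_iff h]
  simp only [Kx, of_apply]
  rw [add_mul, mul_assoc, div_mul_cancel₀ _ h]
  fin_cases x <;> simp [Dl, bump] <;> ring

lemma Kx_bump (q : ℝ) (v : Fin 3 → ℝ) (x : Fin 3) (t : ℝ) (h : Dl q v ≠ 0)
    (h' : Dl q (bump v x t) ≠ 0) (p r : Fin 3) :
    Kx q (bump v x t) p r = Kx q v p r - Kx q v p x * Kx q v x r * (t / (1 + t * Kx q v x x)) := by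
  rw [one_add_Kx q v x t h]
  simp only [Kx, of_apply]
  have key : ∀ a a' b c : ℝ, a' * Dl q v = a * Dl q (bump v x t) - b * c * t →
      a' / Dl q (bump v x t) = a / Dl q v - b / Dl q v * (c / Dl q v) *
        (t / (Dl q (bump v x t) / Dl q v)) := by
    intro a a' b c hh
    field_simp
    linarith
  apply key
  fin_cases x <;> fin_cases p <;> fin_cases r <;> simp [Dl, bump] <;> ring

end Pool.Agent.Disp90
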