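import Mathlib

/-!
Pivoting a determinant on an entry.
-/

namespace Pool.Agent.Disp90

open Matrix Finset

variable {ι : Type*}

/-- Schur complement of `A` with respect to the entry `(p,q)`. -/
noncomputable def sch (A : Matrix ι ι ℝ) (p q : ι) : Matrix ι ι ℝ :=
  of fun y z => A y z - A y q * A p z / A p q

lemma det_pivot {k : ℕ} (A : Matrix ι ι ℝ) (f g : Fin (k + 1) → ι) (i j : Fin (k + 1))
    (h : A (f i) (g j) ≠ 0) :
    (A.submatrix f g).det = (-1) ^ ((i : ℕ) + (j : ℕ)) * A (f i) (g j) *
      ((sch A (f i) (g j)).submatrix (f ∘ i.succAbove) (g ∘ j.succAbove)).det := by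
  set M' : Matrix (Fin (k + 1)) (Fin (k + 1)) ℝ := of fun r c =>
    A (f r) (g c) - (if r = i then 0 else A (f r) (g j) / A (f i) (g j)) * A (f i) (g c) with hM'
  have h1 : (A.submatrix f g).det = M'.det := by
    refine det_eq_of_forall_row_eq_smul_add_const
      (fun r => if r = i then 0 else A (f r) (g j) / A (f i) (g j)) i (by simp) ?_
    intro r c
    simp only [hM', submatrix_apply, of_apply, if_true]
    ring
  rw [h1, det_succ_column M' j, Finset.sum_eq_single i]
  · have h2 : M' i j = A (f i) (g j) := by simp [hM']
    have h3 : M'.submatrix i.succAbove j.succAbove =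
        (sch A (f i) (g j)).submatrix (f ∘ i.succAbove) (g ∘ j.succAbove) := by
      ext r c
      simp only [hM', sch, submatrix_apply, of_apply, Function.comp_apply,
        if_neg (Fin.succAbove_ne i r)]
      ring
    rw [h2, h3]
  · intro r _ hr
    have h2 : M' r j = 0 := by
      simp only [hM', of_apply, if_neg hr]
      field_simp
      ring
    rw [h2]; ring
  · intro h; exact absurd (Finset.mem_univ _) h

end Pool.Agent.Disp90
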