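import Pool.Agent.Disp90.Pivot
import Pool.Agent.Disp71.Defs

/-!
Transfer from arbitrary finite index types to `Fin n`, and direct sums with an identity matrix.
-/

namespace Pool.Agent.Disp90

open Matrix Finset

section defs

variable {ι : Type*} [DecidableEq ι]

/-- all principal minors are positive -/
def PG (A : Matrix ι ι ℝ) : Prop :=
  ∀ (k : ℕ) (f : Fin k → ι), Function.Injective f → 0 < (A.submatrix f f).det

/-- `(S_d)` with matched enumerations of the row and column sets -/
def SG (d : ℕ) (A : Matrix ι ι ℝ) : Prop :=
  ∀ (k : ℕ) (f g : Fin k → ι), Function.Injective f → Function.Injective g →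
    (∀ i j, f i = g j → i = j) → (Finset.univ.filter fun i => f i ≠ g i).card ≤ d →
    0 ≤ (A.submatrix f g).det * (A.submatrix g f).det

/-- not stable -/
def US [Fintype ι] (A : Matrix ι ι ℝ) : Prop :=
  ∃ (μ : ℂ) (v : ι → ℂ), v ≠ 0 ∧ (A.map (algebraMap ℝ ℂ)).mulVec v = μ • v ∧ μ.re ≤ 0

end defs

section sum

variable {ι κ : Type*} [DecidableEq ι] [DecidableEq κ]

/-- direct sum with the identity -/
def DS (κ : Type*) [DecidableEq κ] (A : Matrix ι ι ℝ) : Matrix (ι ⊕ κ) (ι ⊕ κ) ℝ :=
  fromBlocks A 0 0 1

omit [DecidableEq ι] in
lemma DS_row (A : Matrix ι ι ℝ) (y : κ) {x : ι ⊕ κ} (h : x ≠ Sum.inr y) :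
    DS κ A (Sum.inr y) x = 0 := by
  rcases x with x | x
  · simp [DS]
  · have : y ≠ x := fun e => h (by rw [e])
    simp [DS, one_apply, this]

omit [DecidableEq ι] in
lemma DS_diag (A : Matrix ι ι ℝ) (y : κ) : DS κ A (Sum.inr y) (Sum.inr y) = 1 := by
  simp [DS]

omit [DecidableEq ι] in
lemma DS_PG {A : Matrix ι ι ℝ} (hA : PG A) : PG (DS κ A) := by
  intro k
  induction k with
  | zero => intro f _; simp
  | succ k IH =>
    intro f hf
    by_cases h : ∃ i y, f i = Sum.inr y
    · obtain ⟨i, y, hy⟩ := h
      have h1 : DS κ A (f i) (f i) = 1 := by rw [hy]; exact DS_diag A y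
      rw [det_pivot _ f f i i (by rw [h1]; exact one_ne_zero), h1]
      have e1 : (sch (DS κ A) (f i) (f i)).submatrix (f ∘ i.succAbove) (f ∘ i.succAbove) =
          (DS κ A).submatrix (f ∘ i.succAbove) (f ∘ i.succAbove) := by
        ext r s
        simp only [submatrix_apply, Function.comp_apply, sch, of_apply]
        rw [hy, DS_row A y (x := f (i.succAbove s)) (fun h => Fin.succAbove_ne i s
          (hf (h.trans hy.symm)))]
        ring
      rw [e1, ← two_mul, pow_mul]
      have := IH (f ∘ i.succAbove) (hf.comp Fin.succAbove_right_injective)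
      simpa using this
    · push Not at h
      have h' : ∀ i, ∃ x, f i = Sum.inl x := by
        intro i
        rcases hfi : f i with x | x
        · exact ⟨x, rfl⟩
        · exact absurd hfi (h i x)
      choose f' hf' using h'
      have e1 : (DS κ A).submatrix f f = A.submatrix f' f' := by
        ext r s
        simp only [submatrix_apply, hf']
        simp [DS]
      rw [e1]
      refine hA _ f' fun a b hab => hf ?_
      rw [hf', hf', hab]

lemma DS_SG {d : ℕ} {A : Matrix ι ι ℝ} (hA : SG d A) : SG d (DS κ A) := by
  intro k
  induction k with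
  | zero => intro f g _ _ _ _; simp
  | succ k IH =>
    intro f g hf hg hm hc
    by_cases h : ∃ i y, f i = Sum.inr y
    · obtain ⟨i, y, hy⟩ := h
      by_cases hfg : f i = g i
      · have h1 : DS κ A (f i) (g i) = 1 := by rw [← hfg, hy]; exact DS_diag A y
        have h2 : DS κ A (g i) (f i) = 1 := by rw [← hfg, hy]; exact DS_diag A y
        rw [det_pivot _ f g i i (by rw [h1]; exact one_ne_zero), h1,
          det_pivot _ g f i i (by rw [h2]; exact one_ne_zero), h2]
        have e1 : (sch (DS κ A) (f i) (g i)).submatrix (f ∘ i.succAbove) (g ∘ i.succAbove) =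
            (DS κ A).submatrix (f ∘ i.succAbove) (g ∘ i.succAbove) := by
          ext r s
          simp only [submatrix_apply, Function.comp_apply, sch, of_apply]
          rw [hy, DS_row A y (x := g (i.succAbove s)) (fun h => Fin.succAbove_ne i s
            (hg (h.trans (hy.symm.trans hfg))))]
          ring
        have e2 : (sch (DS κ A) (g i) (f i)).submatrix (g ∘ i.succAbove) (f ∘ i.succAbove) =
            (DS κ A).submatrix (g ∘ i.succAbove) (f ∘ i.succAbove) := by
          ext r s
          simp only [submatrix_apply, Function.comp_apply, sch, of_apply]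
          rw [← hfg, hy, DS_row A y (x := f (i.succAbove s)) (fun h => Fin.succAbove_ne i s
            (hf (h.trans hy.symm)))]
          ring
        rw [e1, e2, ← two_mul, pow_mul]
        have hc' : (Finset.univ.filter fun r : Fin k =>
            (f ∘ i.succAbove) r ≠ (g ∘ i.succAbove) r).card ≤ d := by
          refine le_trans (Finset.card_le_card_of_injOn i.succAbove ?_
            (Fin.succAbove_right_injective.injOn)) hc
          intro r hr
          simp only [Finset.coe_filter, Finset.mem_univ, true_and, Set.mem_ofPred_eq,
            Function.comp_apply] at hr ⊢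
          exact hr
        have := IH (f ∘ i.succAbove) (g ∘ i.succAbove) (hf.comp Fin.succAbove_right_injective)
          (hg.comp Fin.succAbove_right_injective)
          (fun a b h => Fin.succAbove_right_injective (hm _ _ h)) hc'
        simpa using this
      · rw [det_eq_zero_of_row_eq_zero i, zero_mul]
        intro j
        rw [submatrix_apply, hy]
        refine DS_row A y fun h => ?_
        have h1 : f i = g j := hy.trans h.symm
        have h2 := hm i j h1
        rw [← h2] at h1
        exact hfg h1
    · by_cases h' : ∃ i y, g i = Sum.inr y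
      · obtain ⟨i, y, hy⟩ := h'
        rw [det_eq_zero_of_row_eq_zero (A := (DS κ A).submatrix g f) i, mul_zero]
        intro j
        rw [submatrix_apply, hy]
        exact DS_row A y fun hh => h ⟨j, y, hh⟩
      · push Not at h h'
        have hf' : ∀ i, ∃ x, f i = Sum.inl x := by
          intro i
          rcases hfi : f i with x | x
          · exact ⟨x, rfl⟩
          · exact absurd hfi (h i x)
        have hg' : ∀ i, ∃ x, g i = Sum.inl x := by
          intro i
          rcases hfi : g i with x | x
          · exact ⟨x, rfl⟩
          · exact absurd hfi (h' i x)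
        choose f' hf' using hf'
        choose g' hg' using hg'
        have e1 : (DS κ A).submatrix f g = A.submatrix f' g' := by
          ext r s
          simp only [submatrix_apply, hf', hg']
          simp [DS]
        have e2 : (DS κ A).submatrix g f = A.submatrix g' f' := by
          ext r s
          simp only [submatrix_apply, hf', hg']
          simp [DS]
        rw [e1, e2]
        refine hA _ f' g' (fun a b hab => hf ?_) (fun a b hab => hg ?_) (fun a b hab => hm a b ?_) ?_
        · rw [hf', hf', hab]
        · rw [hg', hg', hab]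
        · rw [hf', hg', hab]
        · refine le_trans (Finset.card_le_card ?_) hc
          intro i hi
          simp only [Finset.mem_filter, Finset.mem_univ, true_and] at hi ⊢
          rw [hf', hg']
          exact fun hh => hi (Sum.inl_injective hh)

omit [DecidableEq ι] in
lemma DS_US [Fintype ι] [Fintype κ] {A : Matrix ι ι ℝ} (hA : US A) : US (DS κ A) := by
  obtain ⟨μ, v, hv, he, hμ⟩ := hA
  refine ⟨μ, Sum.elim v 0, ?_, ?_, hμ⟩
  · intro h
    apply hv
    funext i
    have := congrFun h (Sum.inl i)
    simpa using this
  · have h1 : (DS κ A).map (algebraMap ℝ ℂ) =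
        fromBlocks (A.map (algebraMap ℝ ℂ)) 0 0 1 := by
      rw [DS, fromBlocks_map]
      congr 1
      · ext i j
        by_cases h : i = j
        · subst h; simp
        · simp [h]
    rw [h1, fromBlocks_mulVec]
    funext i
    rcases i with i | i
    · have := congrFun he i
      simpa using this
    · simp

end sum

section fin

variable {ι : Type*} [DecidableEq ι] [Fintype ι]

open Pool.Agent.Disp71

/-- reordering the columns so that the common elements are matched -/
lemma exists_match {n k : ℕ} (α β : Fin k ↪o Fin n) :
    ∃ τ : Equiv.Perm (Fin k), (∀ i j, α i = β (τ j) → i = j) ∧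
      (Finset.univ.filter fun i => α i ≠ β (τ i)).card ≤ k - common α β := by
  classical
  -- the matching of the common elements
  let e : {i : Fin k // α i ∈ Set.range β} ≃ {j : Fin k // β j ∈ Set.range α} :=
    Equiv.ofBijective (fun i => ⟨i.2.choose, ⟨i.1, (i.2.choose_spec).symm⟩⟩) (by
      constructor
      · rintro ⟨a, ha⟩ ⟨b, hb⟩ h
        have h1 : ha.choose = hb.choose := congrArg Subtype.val h
        have h2 := ha.choose_spec
        have h3 := hb.choose_spec
        rw [h1] at h2
        exact Subtype.ext (α.injective (h2.symm.trans h3))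
      · rintro ⟨j, i, hi⟩
        refine ⟨⟨i, ⟨j, hi.symm⟩⟩, Subtype.ext ?_⟩
        have h2 := (show α i ∈ Set.range β from ⟨j, hi.symm⟩).choose_spec
        exact β.injective (h2.trans hi))
  have he : ∀ i : {i : Fin k // α i ∈ Set.range β}, β (e i) = α i := fun i => i.2.choose_spec
  let τ : Equiv.Perm (Fin k) := e.extendSubtype
  have hτ : ∀ i, α i ∈ Set.range β → β (τ i) = α i := by
    intro i hi
    have h1 : τ i = e ⟨i, hi⟩ := Equiv.extendSubtype_apply_of_mem e i hi
    rw [h1]; exact he ⟨i, hi⟩
  refine ⟨τ, ?_, ?_⟩
  · intro i j h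
    have h1 := hτ i ⟨τ j, h.symm⟩
    exact τ.injective (β.injective (h1.trans h))
  · have h1 : (Finset.univ.filter fun i => α i = β (τ i)).card = common α β := by
      unfold common
      rw [← Finset.card_map α.toEmbedding]
      congr 1
      ext x
      simp only [Finset.mem_map, Finset.mem_filter, Finset.mem_univ, true_and,
        RelEmbedding.coe_toEmbedding, Finset.mem_inter]
      constructor
      · rintro ⟨i, hi, rfl⟩
        exact ⟨⟨i, rfl⟩, ⟨τ i, hi.symm⟩⟩
      · rintro ⟨⟨i, rfl⟩, ⟨j, hj⟩⟩
        exact ⟨i, (hτ i ⟨j, hj⟩).symm, rfl⟩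
    have h2 := Finset.card_filter_add_card_filter_not
      (s := (Finset.univ : Finset (Fin k))) (fun i => α i = β (τ i))
    rw [h1, Finset.card_univ, Fintype.card_fin] at h2
    have h3 : (Finset.univ.filter fun i => α i ≠ β (τ i)) =
      (Finset.univ.filter fun i => ¬ (α i = β (τ i))) := rfl
    rw [h3]
    omega

theorem to_fin {n d : ℕ} (hn : Fintype.card ι = n) {A : Matrix ι ι ℝ} (hP : PG A) (hS : SG d A)
    (hU : US A) : ∃ A' : Matrix (Fin n) (Fin n) ℝ, IsP A' ∧ CondS d A' ∧ ¬ IsStable A' := by
  let e : Fin n ≃ ι := (Fintype.equivFinOfCardEq hn).symm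
  refine ⟨A.submatrix e e, ?_, ?_, ?_⟩
  · intro k α
    exact hP k (fun i => e (α i)) (fun a b h => α.injective (e.injective h))
  · intro k α β hd
    obtain ⟨τ, h1, h2⟩ := exists_match α β
    have key := hS k (fun i => e (α i)) (fun i => e (β (τ i)))
      (fun a b h => α.injective (e.injective h))
      (fun a b h => τ.injective (β.injective (e.injective h)))
      (fun i j h => h1 i j (e.injective h)) (by
        refine le_trans (Finset.card_le_card ?_) (h2.trans hd)
        intro i hi
        simp only [Finset.mem_filter, Finset.mem_univ, true_and] at hi ⊢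
        exact fun h => hi (by rw [h]))
    have e1 : (A.submatrix (fun i => e (α i)) (fun i => e (β (τ i)))) =
      ((A.submatrix e e).submatrix α β).submatrix id τ := rfl
    have e2 : (A.submatrix (fun i => e (β (τ i))) (fun i => e (α i))) =
      ((A.submatrix e e).submatrix β α).submatrix τ id := rfl
    rw [e1, e2, det_permute, det_permute'] at key
    have h3 : ((Equiv.Perm.sign τ : ℤ) : ℝ) * ((Equiv.Perm.sign τ : ℤ) : ℝ) = 1 := by
      rw [← Int.cast_mul]; simp
    have h4 : ∀ a b : ℝ, ((Equiv.Perm.sign τ : ℤ) : ℝ) * a * (((Equiv.Perm.sign τ : ℤ) : ℝ) * b) =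
      (((Equiv.Perm.sign τ : ℤ) : ℝ) * ((Equiv.Perm.sign τ : ℤ) : ℝ)) * (a * b) := by
      intros; ring
    rw [h4, h3, one_mul] at key
    exact key
  · intro hst
    obtain ⟨μ, v, hv, he, hμ⟩ := hU
    have := hst μ (v ∘ e) (by
      intro h
      apply hv
      funext x
      have := congrFun h (e.symm x)
      simpa using this) (by
      funext i
      have h1 := congrFun he (e i)
      rw [← Matrix.submatrix_map]
      have h2 : ((A.map (algebraMap ℝ ℂ)).submatrix e e).mulVec (v ∘ e) i =
          (A.map (algebraMap ℝ ℂ)).mulVec v (e i) := by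
        rw [Matrix.submatrix_mulVec_equiv]
        simp [Function.comp_def]
      rw [h2, h1]
      simp)
    linarith

end fin

end Pool.Agent.Disp90
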