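import Pool.Agent.Disp90.Engine
import Pool.Agent.Disp90.Transfer

/-!
Instability of the matrix of the family with all indices double and `v = 1`.
-/

namespace Pool.Agent.Disp90

open Matrix Finset

/-- the primitive cube root of unity -/
noncomputable def om : ℂ := ⟨-1/2, Real.sqrt 3 / 2⟩

lemma om_sq : om ^ 2 + om + 1 = 0 := by
  have h3 : Real.sqrt 3 * Real.sqrt 3 = 3 := Real.mul_self_sqrt (by norm_num)
  apply Complex.ext
  · simp only [om, sq, Complex.add_re, Complex.mul_re, Complex.one_re, Complex.zero_re]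
    linarith
  · simp only [om, sq, Complex.add_im, Complex.mul_im, Complex.one_im, Complex.zero_im]
    ring

lemma om_cube : om ^ 3 = 1 := by
  have h : (om - 1) * (om ^ 2 + om + 1) = 0 := by rw [om_sq, mul_zero]
  have : om ^ 3 - 1 = 0 := by linear_combination h
  linear_combination this

/-- the eigenvalue of `K` -/
noncomputable def kev (q : ℝ) : ℂ := (1 + q * om + q ^ 2 * om ^ 2) / (Dl q (fun _ => 1) : ℝ)

lemma Kx_om (q : ℝ) (i : Fin 3) :
    ∑ p : Fin 3, ((Kx q (fun _ => 1) i p : ℝ) : ℂ) * om ^ (p : ℕ) = kev q * om ^ (i : ℕ) := by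
  have h3 := om_cube
  rw [Fin.sum_univ_three]
  simp only [Kx, of_apply, kev]
  fin_cases i
  · simp; ring
  · simp
    have : om ^ 3 = 1 := om_cube
    linear_combination (-(q:ℂ)^2 * ((Dl q (fun _ => 1) : ℝ) : ℂ)⁻¹) * this
  · simp
    have : om ^ 3 = 1 := om_cube
    linear_combination ((-(q:ℂ) - (q:ℂ)^2 * om) * ((Dl q (fun _ => 1) : ℝ) : ℂ)⁻¹) * this

lemma kev_re (q : ℝ) : (kev q).re = (1 - q / 2 - q ^ 2 / 2) / Dl q (fun _ => 1) := by
  have h3 : Real.sqrt 3 * Real.sqrt 3 = 3 := Real.mul_self_sqrt (by norm_num)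
  have h : kev q = ((1 - q / 2 - q ^ 2 / 2 : ℝ) + (Real.sqrt 3 / 2 * (q - q ^ 2) : ℝ) * Complex.I) /
      (Dl q (fun _ => 1) : ℝ) := by
    unfold kev
    congr 1
    apply Complex.ext
    · simp only [om, sq, Complex.add_re, Complex.mul_re, Complex.one_re, Complex.ofReal_re,
        Complex.ofReal_im, Complex.I_re, Complex.I_im, Complex.mul_im]
      linear_combination (-(q * q) / 4) * h3
    · simp only [om, sq, Complex.add_im, Complex.mul_re, Complex.one_im, Complex.ofReal_re,
        Complex.ofReal_im, Complex.I_re, Complex.I_im, Complex.mul_im]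
      ring
  rw [h, Complex.div_ofReal_re, Complex.add_re, Complex.ofReal_re, Complex.mul_I_re,
    Complex.ofReal_im]
  ring

lemma kev_im (q : ℝ) : (kev q).im = Real.sqrt 3 / 2 * (q - q ^ 2) / Dl q (fun _ => 1) := by
  have h3 : Real.sqrt 3 * Real.sqrt 3 = 3 := Real.mul_self_sqrt (by norm_num)
  have h : kev q = ((1 - q / 2 - q ^ 2 / 2 : ℝ) + (Real.sqrt 3 / 2 * (q - q ^ 2) : ℝ) * Complex.I) /
      (Dl q (fun _ => 1) : ℝ) := by
    unfold kev
    congr 1
    apply Complex.ext
    · simp only [om, sq, Complex.add_re, Complex.mul_re, Complex.one_re, Complex.ofReal_re,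
        Complex.ofReal_im, Complex.I_re, Complex.I_im, Complex.mul_im]
      linear_combination (-(q * q) / 4) * h3
    · simp only [om, sq, Complex.add_im, Complex.mul_re, Complex.one_im, Complex.ofReal_re,
        Complex.ofReal_im, Complex.I_re, Complex.I_im, Complex.mul_im]
      ring
  rw [h, Complex.div_ofReal_im, Complex.add_im, Complex.ofReal_im, Complex.mul_I_im,
    Complex.ofReal_re]
  ring

/-- a complex number `l` with `2 l - l² = μ` and nonpositive real part -/
lemma exists_root (μ : ℂ) (h : 4 * μ.re ≤ μ.im ^ 2) : ∃ l : ℂ, 2 * l - l ^ 2 = μ ∧ l.re ≤ 0 := by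
  have main : ∀ z : ℂ, z ^ 2 = 1 - μ → 0 ≤ z.re → 1 ≤ z.re := by
    intro z hz h0
    have h1 := congrArg Complex.re hz
    have h2 := congrArg Complex.im hz
    simp only [sq, Complex.mul_re, Complex.mul_im, Complex.sub_re, Complex.sub_im, Complex.one_re,
      Complex.one_im] at h1 h2
    have h3 : 0 ≤ (z.re ^ 2 - 1) * (z.im ^ 2 + 1) := by
      have : (z.re ^ 2 - 1) * (z.im ^ 2 + 1) = μ.im ^ 2 / 4 - μ.re := by
        have e1 : μ.im = -(2 * z.re * z.im) := by linarith
        rw [e1]
        linear_combination h1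
      rw [this]; linarith
    have h4 : 0 < z.im ^ 2 + 1 := by positivity
    have h5 : 0 ≤ z.re ^ 2 - 1 := nonneg_of_mul_nonneg_left h3 h4
    nlinarith
  obtain ⟨z, hz⟩ := IsAlgClosed.exists_pow_nat_eq (1 - μ) (n := 2) (by norm_num)
  rcases le_total 0 z.re with h0 | h0
  · refine ⟨1 - z, by linear_combination -hz, ?_⟩
    have := main z hz h0
    simp only [Complex.sub_re, Complex.one_re]; linarith
  · refine ⟨1 + z, by linear_combination -hz, ?_⟩
    have := main (-z) (by rw [neg_sq]; exact hz) (by simpa using h0)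
    simp only [Complex.neg_re] at this
    simp only [Complex.add_re, Complex.one_re]; linarith

/-- the index set -/
abbrev JJ (s : ℕ) := Fin 3 × Fin s

/-- the matrix -/
noncomputable def A0 (c ε q : ℝ) (s : ℕ) : Matrix (Bool × JJ s) (Bool × JJ s) ℝ :=
  B c ε Prod.fst (fun _ => St.dbl) (Kx q (fun _ => 1))

theorem A0_US (c ε q : ℝ) (s : ℕ) (hs : 0 < s)
    (h : 4 * (c * ε + c * s * (kev q).re) ≤ (c * s * (kev q).im) ^ 2) : US (A0 c ε q s) := by
  set μ : ℂ := (c * ε : ℝ) + (c * s : ℝ) * kev q with hμ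
  have hre : μ.re = c * ε + c * s * (kev q).re := by
    simp [hμ]
  have him : μ.im = c * s * (kev q).im := by
    simp [hμ]
  obtain ⟨l, hl1, hl2⟩ := exists_root μ (by rw [hre, him]; exact h)
  have hsum : ∀ i : JJ s, ∑ j : JJ s, ((Mm c ε Prod.fst (Kx q (fun _ => 1)) i j : ℝ) : ℂ) *
      om ^ (j.1 : ℕ) = μ * om ^ (i.1 : ℕ) := by
    intro i
    have e1 : ∀ j : JJ s, ((Mm c ε Prod.fst (Kx q (fun _ => 1)) i j : ℝ) : ℂ) * om ^ (j.1 : ℕ) =
        (if i = j then ((c * ε : ℝ) : ℂ) * om ^ (j.1 : ℕ) else 0) +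
        (c : ℂ) * (((Kx q (fun _ => 1) i.1 j.1 : ℝ) : ℂ) * om ^ (j.1 : ℕ)) := by
      intro j
      simp only [Mm]
      split_ifs <;> push_cast <;> ring
    simp_rw [e1]
    rw [Finset.sum_add_distrib, Finset.sum_ite_eq, if_pos (Finset.mem_univ _), ← Finset.mul_sum,
      Fintype.sum_prod_type]
    simp only [Finset.sum_const, Finset.card_univ, Fintype.card_fin, nsmul_eq_mul]
    rw [← Finset.mul_sum, Kx_om, hμ]
    push_cast
    ring
  refine ⟨l, fun x => if x.1 then (l - 1) * om ^ (x.2.1 : ℕ) else om ^ (x.2.1 : ℕ), ?_, ?_, hl2⟩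
  · intro h0
    have := congrFun h0 (false, ((0 : Fin 3), (⟨0, hs⟩ : Fin s)))
    simp at this
  · funext x
    rcases x with ⟨b, i⟩
    simp only [mulVec, dotProduct, Fintype.sum_prod_type (α₁ := Bool), Fintype.sum_bool,
      Matrix.map_apply, A0, B, of_apply, Pi.smul_apply, smul_eq_mul]
    cases b
    · simp only [E, rho, kap, Complex.coe_algebraMap]
      simp only [and_true, if_true, Bool.false_eq_true, if_false, zero_mul, add_zero,
        mul_zero, Complex.ofReal_zero, apply_ite Complex.ofReal, Complex.ofReal_one, ite_mul,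
        one_mul, Finset.sum_ite_eq, Finset.mem_univ]
      ring
    · simp only [E, rho, kap, Complex.coe_algebraMap]
      simp only [and_true, if_true, Bool.false_eq_true, if_false, mul_zero, zero_mul, add_zero,
        mul_one, neg_mul, one_mul, Complex.ofReal_add, Complex.ofReal_neg,
        apply_ite Complex.ofReal, Complex.ofReal_one, Complex.ofReal_zero, add_mul, ite_mul,
        Finset.sum_add_distrib, Finset.sum_ite_eq, Finset.mem_univ, Finset.sum_neg_distrib]
      rw [hsum i, ← hl1]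
      ring

end Pool.Agent.Disp90
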